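import Pool.Agent.Run7.h566.PQ.Auto

/-!
Bilinear and multilinear families of finite configurations: almost all members show all words of
given length at all positions near the origin infinitely often.
-/

set_option autoImplicit false

namespace Pool.Agent.Results.MP_cc0c1a_nt.BilinearAndMultilinearFamilies

open Pool.Agent.H429R2.Auto

/-- The base 6 expansion of the real number `β ≥ 0`: the digit at the position `i` is
`⌊6 ^ i β⌋ mod 6`. -/
noncomputable def expansion (β : ℝ) : Conf :=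
  fun i => ⟨⌊(6 : ℝ) ^ i * β⌋₊ % 6, Nat.mod_lt _ (by norm_num)⟩

/-- `x` shows the word `w` of `L` letters starting at the position `j`. -/
def Shows {L : ℕ} (x : Conf) (w : Fin L → Fin 6) (j : ℤ) : Prop := ∀ s : Fin L, x (j + (s : ℕ)) = w s

/-- All words of `L` letters are shown at all positions `j` with `|j| ≤ R` in the orbit of `x` under
`F`, each of them at infinitely many times. -/
def AllShown (L : ℕ) (R : ℝ) (x : Conf) : Prop :=
  ∀ j : ℤ, (|j| : ℝ) ≤ R → ∀ w : Fin L → Fin 6, {t : ℕ | Shows (F^[t] x) w j}.Infinite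

/-- `z (p/q)^t` is modulo one in the interval `[a, b)` for infinitely many `t`. -/
def Hit (p q : ℕ) (a b z : ℝ) : Prop :=
  {t : ℕ | a ≤ Int.fract (z * ((p : ℝ) / q) ^ t) ∧ Int.fract (z * ((p : ℝ) / q) ^ t) < b}.Infinite

/-- The function `f` of `n` natural numbers does not depend on the `j`-th of them. -/
def Free {n : ℕ} (j : Fin n) (f : (Fin n → ℕ) → ℝ) : Prop :=
  ∀ a a' : Fin n → ℕ, (∀ i, i ≠ j → a i = a' i) → f a = f a'

/-- the points with the coordinates `0 ≤ a_i < M` -/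
def box (n M : ℕ) : Finset (Fin n → ℕ) := Fintype.piFinset fun _ => Finset.range M

open Classical in
/-- (1) The finite configurations are the expansions of the numbers `N / 6 ^ k`.

(2) For every `L` and `0 < δ ≤ 1` there are `c, C > 0` such that for all `β > 0`, `M ≥ 1`, all sets
`A`, `B` of natural numbers less than `M` with `|A| |B| ≥ M ^ (1 + δ)` and all functions
`x, y : ℕ → [0, ∞)`: for all but at most `C M ^ (-c) |A| |B|` of the pairs `(m, n)` in `A × B`, the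
orbit of the expansion of `m n β + x_m + y_n` under `F` shows every word of `L` letters at every
position `j` with `|j| ≤ M ^ c` infinitely often.

(3) For every `L` and `n` there are `c, C > 0` such that for all `β > 0`, `M ≥ 1` and all functions
`x_0, …, x_n ≥ 0` of `n + 1` natural numbers, `x_j` not depending on the `j`-th of them: for all but
at most `C M ^ (n + 1 - c)` of the points `a` of `[0, M) ^ (n + 1)`, the orbit of the expansion of
`a_0 ⋯ a_n β + x_0(a) + ⋯ + x_n(a)` shows every word of `L` letters at every position `j` with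
`|j| ≤ M ^ c` infinitely often.

(4), (5) The same for the powers of `p/q`, `p > q ≥ 2` coprime, for every real `ξ ≠ 0` and arbitrary
real functions: for all but at most `C M ^ (-c) |A| |B|` of the pairs, respectively at most
`C M ^ (n + 1 - c)` of the points, the numbers `(m n ξ + x_m + y_n) (p/q)^t`, respectively
`(a_0 ⋯ a_n ξ + ∑ x_j(a)) (p/q)^t`, are modulo one in `[a, a + 2 q ^ (-h))` for infinitely many `t`. -/
theorem result :
    (∀ x : Conf, IsFin x ↔ ∃ N k : ℕ, x = expansion ((N : ℝ) / 6 ^ k)) ∧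
    (∀ (L : ℕ) (δ : ℝ), 0 < δ → δ ≤ 1 → ∃ c C : ℝ, 0 < c ∧ 0 < C ∧
      ∀ β : ℝ, 0 < β → ∀ M : ℕ, 1 ≤ M → ∀ A B : Finset ℕ, A ⊆ Finset.range M → B ⊆ Finset.range M →
      (M : ℝ) ^ (1 + δ) ≤ (A.card : ℝ) * B.card →
      ∀ x y : ℕ → ℝ, (∀ m, 0 ≤ x m) → (∀ n, 0 ≤ y n) →
      (((A ×ˢ B).filter fun z : ℕ × ℕ => ¬ AllShown L ((M : ℝ) ^ c)
        (expansion ((z.1 * z.2 : ℝ) * β + x z.1 + y z.2))).card : ℝ) ≤
        C * (M : ℝ) ^ (-c) * ((A.card : ℝ) * B.card)) ∧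
    (∀ L n : ℕ, ∃ c C : ℝ, 0 < c ∧ 0 < C ∧
      ∀ β : ℝ, 0 < β → ∀ M : ℕ, 1 ≤ M → ∀ x : Fin (n + 1) → (Fin (n + 1) → ℕ) → ℝ,
      (∀ j a, 0 ≤ x j a) → (∀ j, Free j (x j)) →
      (((box (n + 1) M).filter fun a => ¬ AllShown L ((M : ℝ) ^ c)
        (expansion ((∏ i, (a i : ℝ)) * β + ∑ j, x j a))).card : ℝ) ≤
        C * (M : ℝ) ^ ((n : ℝ) + 1 - c)) ∧
    (∀ p q : ℕ, 2 ≤ q → q < p → Nat.Coprime p q → ∀ h : ℕ, 1 ≤ h → ∀ δ : ℝ, 0 < δ → δ ≤ 1 →
      ∃ c C : ℝ, 0 < c ∧ 0 < C ∧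
      ∀ ξ : ℝ, ξ ≠ 0 → ∀ M : ℕ, 1 ≤ M → ∀ A B : Finset ℕ, A ⊆ Finset.range M → B ⊆ Finset.range M →
      (M : ℝ) ^ (1 + δ) ≤ (A.card : ℝ) * B.card → ∀ x y : ℕ → ℝ,
      ∀ a : ℝ, 0 ≤ a → a + 2 / (q : ℝ) ^ h ≤ 1 →
      (((A ×ˢ B).filter fun z : ℕ × ℕ =>
        ¬ Hit p q a (a + 2 / (q : ℝ) ^ h) ((z.1 * z.2 : ℝ) * ξ + x z.1 + y z.2)).card : ℝ) ≤
        C * (M : ℝ) ^ (-c) * ((A.card : ℝ) * B.card)) ∧
    (∀ p q : ℕ, 2 ≤ q → q < p → Nat.Coprime p q → ∀ h : ℕ, 1 ≤ h → ∀ n : ℕ,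
      ∃ c C : ℝ, 0 < c ∧ 0 < C ∧
      ∀ ξ : ℝ, ξ ≠ 0 → ∀ M : ℕ, 1 ≤ M → ∀ x : Fin (n + 1) → (Fin (n + 1) → ℕ) → ℝ,
      (∀ j, Free j (x j)) → ∀ a : ℝ, 0 ≤ a → a + 2 / (q : ℝ) ^ h ≤ 1 →
      (((box (n + 1) M).filter fun u =>
        ¬ Hit p q a (a + 2 / (q : ℝ) ^ h) ((∏ i, (u i : ℝ)) * ξ + ∑ j, x j u)).card : ℝ) ≤
        C * (M : ℝ) ^ ((n : ℝ) + 1 - c)) := by
  have hcore : ∀ L n : ℕ, ∃ c C : ℝ, 0 < c ∧ 0 < C ∧
      ∀ β : ℝ, 0 < β → ∀ M : ℕ, 1 ≤ M → ∀ x : Fin (n + 1) → (Fin (n + 1) → ℕ) → ℝ,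
      (∀ j a, 0 ≤ x j a) → (∀ j, Free j (x j)) →
      (((box (n + 1) M).filter fun a => ¬ AllShown L ((M : ℝ) ^ c)
        (expansion ((∏ i, (a i : ℝ)) * β + ∑ j, x j a))).card : ℝ) ≤
        C * (M : ℝ) ^ ((n : ℝ) + 1 - c) := by
    intro L n
    obtain ⟨c, C, hc, hC, h⟩ := Pool.Agent.Run7.h566.PQ.multi_int 3 2 le_rfl (by norm_num)
      (by norm_num) (3 * L + 1) (by omega) n
    refine ⟨c / 2, 3 * 6 ^ L * C, by positivity, by positivity, fun β hβ M hM x hx hfree => ?_⟩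
    have hM0 : (0 : ℝ) < M := by exact_mod_cast hM
    have h1 := Pool.Agent.Run7.h566.PQ.auto_window L c C hc M hM ((M : ℝ) ^ (n + 1)) (by positivity)
      hC.le (Pool.Agent.Run7.h566.ML.cube (n + 1) M)
      (fun u => (∏ i, (u i : ℝ)) * β + ∑ j, x j u)
      (fun u _ => by
        have h2 : 0 ≤ ∏ i, (u i : ℝ) := Finset.prod_nonneg fun i _ => Nat.cast_nonneg _
        have h3 : 0 ≤ ∑ j, x j u := Finset.sum_nonneg fun j _ => hx j u
        positivity)
      (fun j a ha ha1 => by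
        have h2 := h ((6 : ℝ) ^ (j - 1) * β) (by positivity) M hM
          (fun j' u => (6 : ℝ) ^ (j - 1) * x j' u) (fun j' u u' huu => by
            beta_reduce
            rw [hfree j' u u' huu]) a ha ha1
        refine le_trans (le_of_eq ?_) h2
        congr 2
        refine Finset.filter_congr fun u _ => ?_
        have h3 : (6 : ℝ) ^ (j - 1) * ((∏ i, (u i : ℝ)) * β + ∑ j, x j u) =
            Pool.Agent.Run7.h566.ML.val ((6 : ℝ) ^ (j - 1) * β)
              (fun j' u => (6 : ℝ) ^ (j - 1) * x j' u) u := by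
          unfold Pool.Agent.Run7.h566.ML.val
          rw [mul_add, Finset.mul_sum]
          ring
        rw [h3])
    have e1 : (M : ℝ) ^ ((n : ℝ) + 1 - c / 2) = (M : ℝ) ^ (-(c / 2)) * (M : ℝ) ^ (n + 1) := by
      rw [← Real.rpow_natCast, ← Real.rpow_add hM0]
      congr 1
      push_cast
      ring
    rw [e1, ← mul_assoc]
    exact h1
  refine ⟨fun x => ⟨fun hx => ?_, ?_⟩, fun L δ hδ hδ1 => ?_, hcore, ?_, ?_⟩
  · obtain ⟨m0, k, hrep, _, _⟩ := exists_rep hx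
    exact ⟨m0, k, Pool.Agent.R544.PQ.eq_conf hrep⟩
  · rintro ⟨N, k, rfl⟩
    exact Pool.Agent.R544.PQ.conf_fin N k
  · obtain ⟨c, C, hc, hC, h⟩ := Pool.Agent.Run7.h566.PQ.bil_int 3 2 le_rfl (by norm_num)
      (by norm_num) (3 * L + 1) (by omega) δ hδ hδ1
    refine ⟨c / 2, 3 * 6 ^ L * C, by positivity, by positivity,
      fun β hβ M hM A B hA hB hcard x y hx hy => ?_⟩
    exact Pool.Agent.Run7.h566.PQ.auto_window L c C hc M hM ((A.card : ℝ) * B.card) (by positivity)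
      hC.le (A ×ˢ B) (fun z : ℕ × ℕ => (z.1 * z.2 : ℝ) * β + x z.1 + y z.2)
      (fun z _ => by
        have := hx z.1
        have := hy z.2
        positivity)
      (fun j a ha ha1 => by
        have h2 := h ((6 : ℝ) ^ (j - 1) * β) (by positivity) M hM A B hA hB hcard
          (fun m => (6 : ℝ) ^ (j - 1) * x m) (fun m => (6 : ℝ) ^ (j - 1) * y m) a ha ha1
        refine le_trans (le_of_eq ?_) h2
        congr 2
        refine Finset.filter_congr fun z _ => ?_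
        have h3 : (6 : ℝ) ^ (j - 1) * ((z.1 * z.2 : ℝ) * β + x z.1 + y z.2) =
            (z.1 * z.2 : ℝ) * ((6 : ℝ) ^ (j - 1) * β) + (6 : ℝ) ^ (j - 1) * x z.1 +
              (6 : ℝ) ^ (j - 1) * y z.2 := by ring
        rw [h3])
  · intro p q hq hqp hco h hh δ hδ hδ1
    obtain ⟨c, C, hc, hC, hb⟩ := Pool.Agent.Run7.h566.PQ.bil_int p q hq hqp hco h hh δ hδ hδ1
    refine ⟨c, C, hc, hC, fun ξ hξ M hM A B hA hB hcard x y a ha ha1 => ?_⟩
    refine le_trans (le_of_eq ?_) (hb ξ hξ M hM A B hA hB hcard x y a ha ha1)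
    congr 2
    refine Finset.filter_congr fun z _ => ?_
    exact Set.not_infinite
  · intro p q hq hqp hco h hh n
    obtain ⟨c, C, hc, hC, hb⟩ := Pool.Agent.Run7.h566.PQ.multi_int p q hq hqp hco h hh n
    refine ⟨c, C, hc, hC, fun ξ hξ M hM x hfree a ha ha1 => ?_⟩
    have hM0 : (0 : ℝ) < M := by exact_mod_cast hM
    have e1 : (M : ℝ) ^ ((n : ℝ) + 1 - c) = (M : ℝ) ^ (-c) * (M : ℝ) ^ (n + 1) := by
      rw [← Real.rpow_natCast, ← Real.rpow_add hM0]
      congr 1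
      push_cast
      ring
    rw [e1, ← mul_assoc]
    refine le_trans (le_of_eq ?_) (hb ξ hξ M hM x hfree a ha ha1)
    congr 2
    refine Finset.filter_congr fun z _ => ?_
    exact Set.not_infinite

end Pool.Agent.Results.MP_cc0c1a_nt.BilinearAndMultilinearFamilies
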