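import Mathlib
import Pool.Agent.R544.PQ.Conf
import Pool.Agent.Run7.h274.AutoX

/-!
# Words in the orbits of the bounded multiples of a finite configuration

Let `x` be a finite nonzero configuration and `m x` its multiple by `m`. For every word `w` of `L`
letters and every position `j`, the word `w` stands at the position `j` of `F^n (m x)` for at least
`T log N` of the times `n < N`, `T` as large as we please, for a positive proportion of the `m ≤ M`,
where `M` is any number `≥ 20 * 6 ^ L`; this happens already for the times in `[N, (1 + ε) N)`,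
uniformly in the position `j`. In the direction of the rows the same holds for every window of `ε n`
cells of every late row `F^n (m x)`, and for almost all `m ≤ M`.

At a time (or place) where `6 ^ i (3/2) ^ n α(x)` is not near a rational number with denominator below
`4 * 6 ^ L`, its multiples by the `m ≤ M` are well distributed modulo 1. The rational numbers near
consecutive terms of the other kind determine each other, so a run of `h` such terms gives a rational
number with small denominator at the distance `(2/3) ^ h`, or `6 ^ (-h)`. By the subspace theorem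
(`Pool.Agent.Y933.KE.powers_far`) such runs have length `o (n)`. For real numbers `ξ` in place of
`α(x)` a divisibility argument bounds the runs by `n log (p/q) / log q + O(1)`.
-/

set_option autoImplicit false

namespace Pool.Agent.Results.MP_cc0c1a_nt.ColumnsOfBoundedMultiples

open Finset
open Pool.Agent.H429R2.Auto (Conf F IsFin)
open Pool.Agent.Run7.h274.AW (ShowsAt expansion inRow)

open Classical in
/-- (A) Every finite configuration `x ≠ 0` is the base 6 expansion of a real number `β > 0`, and its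
multiples `m x`, the expansions of the numbers `m β`, are finite. They have the following properties,
for every natural number `T`, for every `ε` with `0 < ε ≤ 1` and every length `L` (`L ≥ 1` in (3) and
(4)).

(1) For every position `j` there is `N₀` such that for all `M ≥ 20 * 6 ^ L`, `N ≥ N₀` and every word
`w` of length `L`: for at least `M / (16 * 6 ^ L)` of the `m ≤ M`, the configuration `F^n (m x)` shows
`w` at the position `j` for at least `T log N` of the times `n < N`.

(2) There is `N₀` such that for all `N ≥ N₀`, all `K ≥ ε N`, all positions `j` with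
`-(1 - ε) N log_6 (3/2) ≤ j ≤ (1 - ε) N`, all `M ≥ 20 * 6 ^ L` and every word `w` of length `L`: for at
least `M / (16 * 6 ^ L)` of the `m ≤ M`, `F^n (m x)` shows `w` at the position `j` for at least `T` of
the times `n` with `N ≤ n < N + K`.

(3) There is `n₀` such that for all `n ≥ n₀`, all windows of `K ≥ ε n` cells `A, …, A + K - 1` with
`-(1 - ε) n log_6 (3/2) ≤ A` and `A + K ≤ n`, all `M ≥ 28 * 6 ^ L` and every word `w` of length `L`:
for at least `M / (16 * 6 ^ L)` of the `m ≤ M`, the row `F^n (m x)` shows `w` at least `T` times in the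
window.

(4) For every `δ > 0` there are `M₀` and `n₀` such that for all `n ≥ n₀` and `M ≥ M₀`, for all but at
most `δ M` of the `m ≤ M`: the row `F^n (m x)` shows every word of length `L` at least `T` times in
every window as in (3).

(B) Let `p > q ≥ 2` be coprime and `B ≥ 1`. There is `c > 0` such that for all real `ξ ≠ 0` there is
`N₀` such that for all `M ≥ 4 (p + q) B`, all `N ≥ N₀` and all `W < B`: for at least `M / (16 B)` of the
`m ≤ M`, the fractional part of `m ξ (p/q)^n` is in `[W / B, (W + 1) / B)` for at least `c log N` of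
the times `n < N`. -/
theorem result :
    (∀ x : Conf, IsFin x → x ≠ 0 → ∃ β : ℝ, 0 < β ∧ x = expansion β ∧
      (∀ m : ℕ, IsFin (expansion (m * β))) ∧
      (∀ (L T : ℕ) (j : ℤ), ∃ N₀ : ℕ, ∀ M : ℕ, 20 * 6 ^ L ≤ M → ∀ N : ℕ, N₀ ≤ N →
        ∀ w : List (Fin 6), w.length = L →
          M ≤ 16 * 6 ^ L * ((Icc 1 M).filter (fun m : ℕ => T * Real.log N ≤
            (((range N).filter (fun n : ℕ =>
              ShowsAt (F^[n] (expansion (m * β))) w j)).card : ℝ))).card) ∧
      (∀ (L T : ℕ) (ε : ℝ), 0 < ε → ε ≤ 1 → ∃ N₀ : ℕ, ∀ N : ℕ, N₀ ≤ N → ∀ K : ℕ, ε * N ≤ K →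
        ∀ j : ℤ, -((1 - ε) * N * (Real.log (3 / 2) / Real.log 6)) ≤ j → j ≤ (1 - ε) * N →
          ∀ M : ℕ, 20 * 6 ^ L ≤ M → ∀ w : List (Fin 6), w.length = L →
            M ≤ 16 * 6 ^ L * ((Icc 1 M).filter (fun m : ℕ => T ≤
              ((Ico N (N + K)).filter (fun n : ℕ =>
                ShowsAt (F^[n] (expansion (m * β))) w j)).card)).card) ∧
      (∀ (L T : ℕ) (ε : ℝ), 1 ≤ L → 0 < ε → ε ≤ 1 → ∃ n₀ : ℕ, ∀ n : ℕ, n₀ ≤ n →
        ∀ (A : ℤ) (K : ℕ), ε * n ≤ K → -((1 - ε) * n * (Real.log (3 / 2) / Real.log 6)) ≤ A →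
          A + K ≤ n → ∀ M : ℕ, 28 * 6 ^ L ≤ M → ∀ w : List (Fin 6), w.length = L →
            M ≤ 16 * 6 ^ L * ((Icc 1 M).filter (fun m : ℕ => T ≤
              inRow (F^[n] (expansion (m * β))) w A K)).card) ∧
      (∀ (L T : ℕ) (ε δ : ℝ), 1 ≤ L → 0 < ε → ε ≤ 1 → 0 < δ → ∃ M₀ n₀ : ℕ, ∀ n : ℕ, n₀ ≤ n →
        ∀ M : ℕ, M₀ ≤ M →
          (((Icc 1 M).filter (fun m : ℕ => ¬ ∀ (A : ℤ) (K : ℕ), ε * n ≤ K →
            -((1 - ε) * n * (Real.log (3 / 2) / Real.log 6)) ≤ A → A + K ≤ n →
              ∀ w : List (Fin 6), w.length = L →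
                T ≤ inRow (F^[n] (expansion (m * β))) w A K)).card : ℝ) ≤ δ * M)) ∧
    (∀ p q : ℕ, 2 ≤ q → q < p → p.Coprime q → ∀ B : ℕ, 1 ≤ B → ∃ c : ℝ, 0 < c ∧
      ∀ ξ : ℝ, ξ ≠ 0 → ∃ N₀ : ℕ, ∀ M : ℕ, 4 * (p + q) * B ≤ M → ∀ N : ℕ, N₀ ≤ N → ∀ W < B,
        M ≤ 16 * B * ((Icc 1 M).filter (fun m : ℕ => c * Real.log N ≤
          (((range N).filter (fun n : ℕ =>
            (W : ℝ) / B ≤ Int.fract (m * (ξ * ((p : ℝ) / q) ^ n)) ∧
            Int.fract (m * (ξ * ((p : ℝ) / q) ^ n)) < ((W : ℝ) + 1) / B)).card : ℝ))).card) := by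
  refine ⟨fun x hx hx0 => ?_, fun p q hq hqp hpq => Pool.Agent.Run7.h274.WM.pq_log hq hqp hpq⟩
  obtain ⟨a, κ, hrep, ha, _⟩ := Pool.Agent.H429R2.Auto.exists_rep hx
  have ha1 : 1 ≤ a := ha hx0
  refine ⟨(a : ℝ) / 6 ^ κ, by positivity, Pool.Agent.R544.PQ.eq_conf hrep, fun m => ?_,
    fun L T j => Pool.Agent.Run7.h274.AW.fixed a κ ha1 L T j,
    fun L T ε h0 h1 => Pool.Agent.Run7.h274.AW.columns a κ ha1 L T h0 h1,
    fun L T ε hL h0 h1 => Pool.Agent.Run7.h274.AW.rows_pos a κ ha1 L T hL h0 h1,
    fun L T ε δ hL h0 h1 hδ => Pool.Agent.Run7.h274.AW.rows_most a κ ha1 L T hL h0 h1 hδ⟩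
  have e : (m : ℝ) * ((a : ℝ) / 6 ^ κ) = ((m * a : ℕ) : ℝ) / 6 ^ κ := by
    push_cast
    ring
  rw [e]
  exact Pool.Agent.R544.PQ.conf_fin (m * a) κ

end Pool.Agent.Results.MP_cc0c1a_nt.ColumnsOfBoundedMultiples
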