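import Pool.Agent.Run7.h672.AE.F3

/-!
# Random configurations with two possible digits in the cells: every word at every position with the right frequency

Let the cells of a configuration be chosen at random, independently. They need not be uniformly distributed: it is enough that two
digits, for instance `0` and `1`, have probabilities of at least `η > 0`, and this only in the cells outside of a set of density
zero (the other cells may be fixed). Then almost surely every word `w` stands at every position `j` of `F^n(x)` for a proportion
`6 ^ (- |w|)` of the times `n`: the orbit is not only dense but generic for the uniform measure on the configurations. In the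
question the cells are zero from some position on; the theorem is about configurations which may be zero to the left of some
position, whose cells to the right have for instance only the digits `0` and `1`.

The definition `RandomCell` is in `Pool.Agent.Run7.h672.AE.F2`; `F`, `F^[n]` are those of the problem.
-/

set_option autoImplicit false

namespace Pool.Agent.Results.MP_cc0c1a_nt.FrequenciesFromTwoDigits

open Finset MeasureTheory ProbabilityTheory Filter Topology
open Pool.Agent.Run7.h672.AE
open Pool.Agent.H429R2.Auto (F)

open Classical in
/-- Let `C_i`, `i ∈ ℤ`, be independent random cells, zero for `i < - m`, and `η > 0`, and let the set of the `i ≥ 0` for which no two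
values of `C_i` have probabilities of at least `η` have density zero. Then almost surely for every word `w` of length `L ≥ 0` and
every position `j`, the proportion of the `n ≤ N` for which `F^n(C)` shows `w` at the position `j` tends to `6 ^ (- L)`. -/
theorem result (Ω : Type) [MeasurableSpace Ω] (P : Measure Ω) [IsProbabilityMeasure P] (C : ℤ → Ω → Fin 6)
    (hC : ∀ i, Measurable (C i)) (hI : iIndepFun C P) (m : ℕ) (hleft : ∀ i : ℤ, i < -(m : ℤ) → ∀ ω, C i ω = 0) (η : ℝ) (hη : 0 < η)
    (hE : Tendsto (fun M : ℕ => (((range M).filter (fun i : ℕ => ¬ RandomCell P C η i)).card : ℝ) / M) atTop (𝓝 0)) :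
    ∀ᵐ ω ∂P, ∀ (L : ℕ) (w : Fin L → Fin 6) (j : ℤ), Tendsto (fun N : ℕ =>
      (((Icc 1 N).filter (fun n => ∀ r : Fin L, F^[n] (fun i => C i ω) (j + (r : ℕ)) = w r)).card : ℝ) / N) atTop (𝓝 (1 / 6 ^ L)) := by
  refine freq hC hI hη m hleft (fun ε hε => ?_)
  obtain ⟨M₁, hM₁⟩ := exists_nat_gt (2 * m / ε)
  have h1 := hE.eventually_lt_const (show (0 : ℝ) < ε / 2 by positivity)
  filter_upwards [h1, eventually_ge_atTop (M₁ + 1)] with M hM hM1
  have h0 : (0 : ℝ) < M := by exact_mod_cast (by omega : 0 < M)
  rw [div_lt_iff₀ h0] at hM
  have h2 : (range M).filter (fun j => ¬ Two P (dig C m) η j) ⊆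
      range m ∪ ((range M).filter (fun i : ℕ => ¬ RandomCell P C η i)).image (fun i => i + m) := by
    intro j hj
    rw [mem_filter, mem_range] at hj
    rw [mem_union, mem_range, mem_image]
    by_cases h3 : j < m
    · exact Or.inl h3
    · refine Or.inr ⟨j - m, ?_, by omega⟩
      rw [mem_filter, mem_range]
      refine ⟨by omega, fun h4 => hj.2 (two_of_cell ?_)⟩
      have e1 : ((j - m : ℕ) : ℤ) = (j : ℤ) - m := by omega
      rw [e1] at h4
      exact h4
  have h3 := (card_le_card h2).trans ((card_union_le _ _).trans (Nat.add_le_add_left card_image_le _))
  rw [card_range] at h3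
  have h4 : ((((range M).filter (fun j => ¬ Two P (dig C m) η j)).card : ℕ) : ℝ) ≤
      m + (((range M).filter (fun i : ℕ => ¬ RandomCell P C η i)).card : ℝ) := by exact_mod_cast h3
  rw [div_lt_iff₀ hε] at hM₁
  have h5 : ((M₁ : ℝ) + 1) ≤ M := by exact_mod_cast hM1
  nlinarith

end Pool.Agent.Results.MP_cc0c1a_nt.FrequenciesFromTwoDigits
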