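import Pool.Agent.Run7.h672.AE.F3

/-!
# Configurations with random cells in a sparse set: dense orbits, and finite configurations which show all words of a given length

Let `A` be any set of cells which contains arbitrarily long runs of consecutive cells; it may be as sparse as one likes. Put a random
digit, for instance `0` or `1` with equal probabilities, into each cell of `A`, independently, and zeros (or other fixed digits,
zero from some position on to the left) into the other cells. Then almost surely the orbit under `F` is dense. The finite
configurations which arise if the cells to the right of `M` are put to zero show every word of length `L` at every position `j`,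
`|j| ≤ J`, with a probability which tends to one when `M` tends to infinity, for all `L` and `J`. For a finite configuration with a
dense orbit this would have to hold for all `L` and `J` at the same time.

The definitions `RandomCell` and `trunc` are in `Pool.Agent.Run7.h672.AE.F2` and `Pool.Agent.Run7.h672.AE.F3`; `F` and `orbit` are those
of the problem.
-/

set_option autoImplicit false

namespace Pool.Agent.Results.MP_cc0c1a_nt.SparseRandomConfigurations

open Finset MeasureTheory ProbabilityTheory Filter Topology
open Pool.Agent.Run7.h672.AE
open Pool.Agent.H429R2.Auto (F orbit)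

/-- Let `C_i`, `i ∈ ℤ`, be independent random cells, zero for `i < - m`, and `η > 0`, and suppose that for every `L` there are `L`
consecutive cells in which two values have probabilities of at least `η`.

(1) Almost surely the orbit of `C` under `F` is dense.

(2) For all `L` and `J`: the probability that the orbit of the finite configuration `trunc M C` shows every word of length `L` at every
position `j` with `|j| ≤ J` tends to one as `M` tends to infinity. -/
theorem result (Ω : Type) [MeasurableSpace Ω] (P : Measure Ω) [IsProbabilityMeasure P] (C : ℤ → Ω → Fin 6)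
    (hC : ∀ i, Measurable (C i)) (hI : iIndepFun C P) (m : ℕ) (hleft : ∀ i : ℤ, i < -(m : ℤ) → ∀ ω, C i ω = 0) (η : ℝ) (hη : 0 < η)
    (hrun : ∀ L : ℕ, ∃ a : ℤ, ∀ i : ℤ, a ≤ i → i < a + L → RandomCell P C η i) :
    (∀ᵐ ω ∂P, Dense (orbit (fun i => C i ω))) ∧
    (∀ L J : ℕ, Tendsto (fun M : ℕ => P {ω | ∀ j : ℤ, |j| ≤ J → ∀ w : Fin L → Fin 6, ∃ n : ℕ, ∀ r : Fin L,
      F^[n] (trunc M (fun i => C i ω)) (j + (r : ℕ)) = w r}) atTop (𝓝 1)) := by
  -- the cells left of `- m` are not random
  have hm : ∀ i : ℤ, RandomCell P C η i → -(m : ℤ) ≤ i := by
    intro i hi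
    by_contra hcon
    rw [not_le] at hcon
    obtain ⟨u, v, huv, h1, h2⟩ := hi
    obtain ⟨w, hw, hwη⟩ : ∃ w : Fin 6, w ≠ 0 ∧ η ≤ P.real {ω | C i ω = w} := by
      by_cases h : u = 0
      · exact ⟨v, fun h3 => huv (h.trans h3.symm), h2⟩
      · exact ⟨u, h, h1⟩
    have h3 : {ω | C i ω = w} = ∅ := by
      ext ω
      simp only [Set.mem_ofPred_eq, Set.mem_empty_iff_false, iff_false]
      rw [hleft i hcon ω]
      exact fun h => hw h.symm
    rw [h3, measureReal_empty] at hwη
    linarith
  have hrun' : ∀ L : ℕ, ∃ a, ∀ j, a ≤ j → j < a + L → Two P (dig C m) η j := by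
    intro L
    obtain ⟨a, ha⟩ := hrun (L + 1)
    have h1 := hm a (ha a le_rfl (by push_cast; omega))
    obtain ⟨a', ha'⟩ : ∃ a' : ℕ, a + m = (a' : ℤ) := ⟨(a + m).toNat, by omega⟩
    refine ⟨a', fun j hj1 hj2 => two_of_cell (ha _ (by omega) (by push_cast; omega))⟩
  have hinf : ∀ J, ∃ j, J ≤ j ∧ Two P (dig C m) η j := by
    intro J
    obtain ⟨a, ha⟩ := hrun' (J + 1)
    exact ⟨a + J, by omega, ha (a + J) (by omega) (by omega)⟩
  have hd := dense_orbit hC hI hη m hleft hrun'
  constructor
  · filter_upwards [hd, ae_rep hC hI hη m hleft hinf] with ω h1 h2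
    exact dense_of (val_nonneg C m ω) h2 (fun L w j => (h1 L w j).nonempty)
  · intro L J
    apply truncated
    filter_upwards [hd] with ω h1 w j
    exact (h1 L w j).nonempty

end Pool.Agent.Results.MP_cc0c1a_nt.SparseRandomConfigurations
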